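import Pool.Agent.E8helper71.CP.Y706.CH.Stm
import Pool.Agent.E8helper71.CP.Y824.BI.Grn

/-!
# Project CH: the Green function and the pairing of a homogeneous map
-/

set_option autoImplicit false

namespace Pool.Agent.E8helper71.CP.Y824.CH

open Pool.Agent.TH951.W.UB Pool.Agent.TH951.W.UG Pool.Agent.TH951.W.UH Finset Polynomial
open Pool.Agent.E8helper71.CP.Y706.BI (UV eqv fU hh G0 gg rt Av rt_spec)
open Pool.Agent.E8helper71.CP.Y824.BI (fU_spec hh_eqv fU_eqv G0_eqv gg_eqv gg_symm rt_eqv)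
open Pool.Agent.E8helper71.CP.Y706.CH (S_GRN2)

universe u

section

variable {Ω : Type u} [NormedField Ω] [IsUltrametricDist Ω]

lemma geo {d : ℕ} (hd2 : 2 ≤ d) :
    HasSum (fun n : ℕ => 1 / (d : ℝ) ^ (n + 1)) (1 / ((d : ℝ) - 1)) := by
  have hd : (2 : ℝ) ≤ d := by exact_mod_cast hd2
  have h1 := hasSum_geometric_of_lt_one (r := 1 / (d : ℝ)) (by positivity)
    (by rw [div_lt_one (by linarith)]; linarith)
  have h2 := h1.mul_left (1 / (d : ℝ))
  have h3 : 1 / (d : ℝ) * (1 - 1 / (d : ℝ))⁻¹ = 1 / ((d : ℝ) - 1) := by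
    have h4 : (d : ℝ) ≠ 0 := by linarith
    have h5 : (d : ℝ) - 1 ≠ 0 := by linarith
    field_simp
  rw [h3] at h2
  have h6 : (fun n : ℕ => 1 / (d : ℝ) ^ (n + 1)) =
      fun n : ℕ => 1 / (d : ℝ) * (1 / (d : ℝ)) ^ n := by
    funext n
    rw [one_div_pow, pow_succ]
    field_simp
  rw [h6]
  exact h2

variable (T : HS Ω) (hd2 : 2 ≤ T.d) (hlo : ∀ X : UV Ω, -T.Res ≤ hh T X)
  (hup : ∀ X : UV Ω, hh T X ≤ 0)

include hd2 hlo hup

lemma res_nonneg (X : UV Ω) : 0 ≤ T.Res := by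
  have h1 := hlo X
  have h2 := hup X
  linarith

lemma sm (X : UV Ω) :
    Summable fun n : ℕ => hh T ((fU T)^[n] X) / (T.d : ℝ) ^ (n + 1) := by
  have hd : (2 : ℝ) ≤ T.d := by exact_mod_cast hd2
  refine Summable.of_norm_bounded ((geo hd2).summable.mul_left T.Res) fun n => ?_
  have hp : (0 : ℝ) < (T.d : ℝ) ^ (n + 1) := by positivity
  rw [norm_div, Real.norm_eq_abs, Real.norm_eq_abs, abs_of_pos hp, mul_one_div]
  refine div_le_div_of_nonneg_right ?_ hp.le
  rw [abs_le]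
  exact ⟨hlo _, (hup _).trans (res_nonneg T hd2 hlo hup X)⟩

lemma le_G0 (X : UV Ω) : -(T.Res / ((T.d : ℝ) - 1)) ≤ G0 T X := by
  have hd : (2 : ℝ) ≤ T.d := by exact_mod_cast hd2
  have h1 := (geo hd2).mul_left (-T.Res)
  have h2 := hasSum_le (fun n => ?_) h1 (sm T hd2 hlo hup X).hasSum
  · unfold G0
    refine le_trans (le_of_eq ?_) h2
    ring
  · have hp : (0 : ℝ) < (T.d : ℝ) ^ (n + 1) := by positivity
    rw [mul_one_div]
    exact div_le_div_of_nonneg_right (hlo _) hp.le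

lemma G0_fU (X : UV Ω) : G0 T (fU T X) = T.d * G0 T X - hh T X := by
  have hd : (2 : ℝ) ≤ T.d := by exact_mod_cast hd2
  have hd0 : (T.d : ℝ) ≠ 0 := by linarith
  have h1 := (sm T hd2 hlo hup X).tsum_eq_zero_add
  have h2 : ∀ n : ℕ, hh T ((fU T)^[n + 1] X) / (T.d : ℝ) ^ (n + 1 + 1) =
      (1 / (T.d : ℝ)) * (hh T ((fU T)^[n] (fU T X)) / (T.d : ℝ) ^ (n + 1)) := by
    intro n
    rw [Function.iterate_succ_apply]
    field_simp
    ring
  simp_rw [h2] at h1
  rw [tsum_mul_left] at h1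
  unfold G0
  rw [h1]
  simp only [Function.iterate_zero, id_eq, zero_add, pow_one]
  field_simp
  ring

lemma log_iter (n : ℕ) (X : UV Ω) : Real.log ‖T.F^[n] X.1‖ =
    (T.d : ℝ) ^ n * G0 T X - G0 T ((fU T)^[n] X) := by
  induction n generalizing X with
  | zero =>
    simp only [Function.iterate_zero, id_eq, pow_zero, one_mul, sub_self, X.2, Real.log_one]
  | succ n ih =>
    obtain ⟨t, ht, h1, h2⟩ := fU_spec T X
    have h3 : ∀ (m : ℕ) (W : Ω × Ω), T.F^[m] (t • W) = t ^ T.d ^ m • T.F^[m] W := by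
      intro m
      induction m with
      | zero => intro W; simp
      | succ m ihm =>
        intro W
        rw [Function.iterate_succ_apply', ihm, T.hom, Function.iterate_succ_apply', ← pow_mul,
          ← pow_succ]
    have h4 : T.F^[n] (fU T X).1 ≠ 0 := by
      have : ∀ (m : ℕ) (W : Ω × Ω), W ≠ 0 → T.F^[m] W ≠ 0 := by
        intro m
        induction m with
        | zero => intro W hW; exact hW
        | succ m ihm =>
          intro W hW
          rw [Function.iterate_succ_apply']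
          exact T.nz _ (ihm W hW)
      exact this n _ (Pool.Agent.E8helper71.CP.Y706.BI.UV.ne (fU T X))
    rw [Function.iterate_succ_apply, h1, h3, norm_smul, norm_pow, Real.log_mul
      (pow_ne_zero _ (norm_ne_zero_iff.2 ht)) (norm_ne_zero_iff.2 h4), Real.log_pow, ih, h2,
      G0_fU T hd2 hlo hup, Function.iterate_succ_apply]
    unfold hh
    push_cast
    ring

lemma sum_rule {X Y : UV Ω} (h : ¬ eqv (fU T X) Y) :
    ∑ l, gg T X (rt T Y l) = gg T (fU T X) Y := by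
  have hd : (2 : ℝ) ≤ T.d := by exact_mod_cast hd2
  have hd0 : (T.d : ℝ) ≠ 0 := by linarith
  have hd1 : (T.d : ℝ) - 1 ≠ 0 := by linarith
  set c := (T.roots Y.1 Y.2).choose with hc
  have hrs : T.IsRS Y.1 c (fun l => (rt T Y l).1) := rt_spec T Y
  obtain ⟨s, hs, hs1, hs2⟩ := fU_spec T X
  have hw : wd (T.F X.1) Y.1 = s * wd (fU T X).1 Y.1 := by rw [hs1, wd_smul_left]
  have hw0 : wd (fU T X).1 Y.1 ≠ 0 := h
  have hpos : 0 < ‖wd (T.F X.1) Y.1‖ := by
    rw [hw]
    exact norm_pos_iff.2 (mul_ne_zero hs hw0)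
  have e1 := HS.sum_log hrs hpos
  have e2 := HS.sum_log_F hrs
  have e3 : Real.log ‖wd (T.F X.1) Y.1‖ = hh T X + Real.log ‖wd (fU T X).1 Y.1‖ := by
    rw [hw, norm_mul, Real.log_mul (norm_ne_zero_iff.2 hs) (norm_ne_zero_iff.2 hw0), hs2]
    rfl
  have e4 : ∀ l, G0 T (rt T Y l) = (G0 T Y + hh T (rt T Y l)) / T.d := by
    intro l
    have h1 := G0_fU T hd2 hlo hup (rt T Y l)
    rw [G0_eqv T (rt_eqv T Y l)] at h1
    field_simp
    linarith
  have e5 : ∑ l, G0 T (rt T Y l) = G0 T Y + (∑ l, hh T (rt T Y l)) / T.d := by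
    simp_rw [e4]
    rw [← Finset.sum_div, Finset.sum_add_distrib, Finset.sum_const, Finset.card_univ,
      Fintype.card_fin, nsmul_eq_mul]
    field_simp
  have e6 : ∑ l, hh T (rt T Y l) = -(T.Res + T.d * Real.log ‖c‖) := by
    rw [← e2, Finset.sum_neg_distrib, neg_neg]
    rfl
  unfold gg
  rw [Finset.sum_add_distrib, Finset.sum_add_distrib, Finset.sum_add_distrib, e1, e5, e6,
    Finset.sum_const, Finset.sum_const, Finset.card_univ, Fintype.card_fin, nsmul_eq_mul,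
    nsmul_eq_mul, e3, G0_fU T hd2 hlo hup]
  field_simp
  ring

lemma gg_ge {X Y : UV Ω} (_h : ¬ eqv X Y) : -(2 * T.Res) ≤ gg T X Y := by
  have hd : (2 : ℝ) ≤ T.d := by exact_mod_cast hd2
  have hR := res_nonneg T hd2 hlo hup X
  have h1 : Real.log ‖wd X.1 Y.1‖ ≤ 0 := by
    refine Real.log_nonpos (norm_nonneg _) ?_
    have := norm_wd_le X.1 Y.1
    rwa [X.2, Y.2, one_mul] at this
  have h2 := le_G0 T hd2 hlo hup X
  have h3 := le_G0 T hd2 hlo hup Y
  have h4 : 0 ≤ T.Res / (T.d * ((T.d : ℝ) - 1)) :=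
    div_nonneg hR (mul_nonneg (by linarith) (by linarith))
  have h5 : T.Res / ((T.d : ℝ) - 1) ≤ T.Res := by
    rw [div_le_iff₀ (by linarith)]
    nlinarith
  unfold gg
  linarith

end

/-- properties of the Green function and of the pairing -/
theorem t_GRN2 : S_GRN2.{u} := by
  intro Ω _ _ _ hnat T hgs hd2
  obtain ⟨B, -⟩ := exists_fam hnat
  have hlo : ∀ X : UV Ω, -T.Res ≤ hh T X := by
    intro X
    have h1 := HS.norm_F_ge (S := T) B hgs.le X.1
    rw [X.2, one_pow, mul_one] at h1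
    unfold hh
    rw [← Real.log_exp (-T.Res)]
    exact Real.log_le_log (Real.exp_pos _) h1
  have hup : ∀ X : UV Ω, hh T X ≤ 0 := by
    intro X
    have h1 := HS.le_gs (S := T) X.2.le
    rw [hgs] at h1
    exact Real.log_nonpos (norm_nonneg _) h1
  have hR : 0 ≤ T.Res := HS.Res_nonneg (S := T) B hgs.le
  exact ⟨hR, fun X => ⟨hlo X, hup X⟩, fun X => ⟨le_G0 T hd2 hlo hup X,
      tsum_nonpos fun n => div_nonpos_of_nonpos_of_nonneg (hup _) (by positivity)⟩,
    G0_fU T hd2 hlo hup, log_iter T hd2 hlo hup,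
    fun X Y h => ⟨hh_eqv T h, G0_eqv T h, fU_eqv T h, fun Z => gg_eqv T h Z⟩,
    gg_symm T, rt_eqv T, fun X Y h => sum_rule T hd2 hlo hup h,
    fun X Y h => gg_ge T hd2 hlo hup h⟩

end Pool.Agent.E8helper71.CP.Y824.CH
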